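import Pool.Agent.KrdIso.Main
import Pool.Agent.Krd.RMd

/-!
# Isolation: from the code to the finite set `S`
-/

set_option autoImplicit false
set_option linter.unusedSectionVars false

namespace Pool.Agent.KrdIso

open Pool.Agent.Krd

theorem sg_eq (t : ZMod 2) : sg t = 1 - 2 * (if t ≠ 0 then 1 else 0) := by
  revert t
  decide

theorem sum_sg {V : Type*} [Fintype V] (g : V → ZMod 2) :
    ∑ x, sg (g x) = Fintype.card V - 2 * ((Finset.univ.filter fun x => g x ≠ 0).card : ℤ) := by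
  simp_rw [sg_eq]
  rw [Finset.sum_sub_distrib, ← Finset.mul_sum, Finset.sum_boole, Finset.sum_const,
    Finset.card_univ, nsmul_eq_mul, mul_one]

theorem sum_sg_dist {V : Type*} [Fintype V] (f g : V → ZMod 2) :
    ∑ x, sg (f x + g x) = Fintype.card V - 2 * (hammingDist f g : ℤ) := by
  rw [sum_sg]
  congr 3
  unfold hammingDist
  congr 1
  apply Finset.filter_congr
  intro x _
  have hz : ∀ s t : ZMod 2, s + t ≠ 0 ↔ s ≠ t := by decide
  exact hz _ _

theorem main {m : ℕ} (hm : 2 ≤ m) (C : Set ((Fin (2 * m) → ZMod 2) → ZMod 2))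
    (hcard : C.ncard = 2 ^ (4 * m)) (hcompl : ∀ f ∈ C, (fun x => f x + 1) ∈ C)
    (hdist : ∀ f ∈ C, ∀ g ∈ C, f ≠ g → 2 ^ (2 * m - 1) - 2 ^ (m - 1) ≤ hammingDist f g)
    (q : (Fin (2 * m) → ZMod 2) → ZMod 2)
    (h : {f ∈ C | ¬ (f + q ∈ RM 2 (2 * m) ∧ ∀ a ∈ RM 1 (2 * m), f + a ∈ C)}.ncard ≤
      (2 ^ m + 1) * 2 ^ (2 * m + 1)) :
    ∀ f ∈ C, f + q ∈ RM 2 (2 * m) := by
  classical
  have : Finite ((Fin (2 * m) → ZMod 2) →ₗ[ZMod 2] ZMod 2) :=
    Finite.of_injective (fun l : (Fin (2 * m) → ZMod 2) →ₗ[ZMod 2] ZMod 2 =>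
      (l : (Fin (2 * m) → ZMod 2) → ZMod 2)) DFunLike.coe_injective
  have : Fintype ((Fin (2 * m) → ZMod 2) →ₗ[ZMod 2] ZMod 2) := Fintype.ofFinite _
  have hV : Fintype.card (Fin (2 * m) → ZMod 2) = 2 ^ (2 * m) := by simp
  have hqq : ∀ f : (Fin (2 * m) → ZMod 2) → ZMod 2, f + q + q = f := by
    intro f
    rw [add_assoc, fun_add_self, add_zero]
  let S : Finset ((Fin (2 * m) → ZMod 2) → ZMod 2) := Finset.univ.filter fun g => g + q ∈ C
  let G : Finset ((Fin (2 * m) → ZMod 2) → ZMod 2) :=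
    S.filter fun g => Quad g ∧ ∀ a, Aff a → g + a ∈ S
  have hmemS : ∀ g, g ∈ S ↔ g + q ∈ C := by
    intro g
    simp [S]
  have hinj : Function.Injective fun g : (Fin (2 * m) → ZMod 2) → ZMod 2 => g + q :=
    add_left_injective q
  have hScard : S.card = Fintype.card (Fin (2 * m) → ZMod 2) ^ 2 := by
    have h1 : (fun g => g + q) '' (S : Set ((Fin (2 * m) → ZMod 2) → ZMod 2)) = C := by
      ext f
      simp only [Set.mem_image, Finset.mem_coe, hmemS]
      constructor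
      · rintro ⟨g, hg, rfl⟩
        exact hg
      · intro hf
        exact ⟨f + q, by rw [hqq]; exact hf, hqq f⟩
    have h2 := Set.ncard_image_of_injective (S : Set ((Fin (2 * m) → ZMod 2) → ZMod 2)) hinj
    rw [h1, Set.ncard_coe_finset, hcard] at h2
    rw [← h2, hV, ← pow_mul]
    congr 1
    omega
  have hRcard : (S \ G).card ≤ (2 ^ m + 1) * 2 ^ (2 * m + 1) := by
    refine le_trans (le_of_eq ?_) h
    have h1 : (fun g => g + q) '' ((S \ G : Finset ((Fin (2 * m) → ZMod 2) → ZMod 2)) :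
        Set ((Fin (2 * m) → ZMod 2) → ZMod 2)) =
        {f ∈ C | ¬ (f + q ∈ RM 2 (2 * m) ∧ ∀ a ∈ RM 1 (2 * m), f + a ∈ C)} := by
      ext f
      simp only [Set.mem_image, Finset.mem_coe, Finset.mem_sdiff, hmemS, G, Finset.mem_filter,
        Set.mem_setOf_eq]
      constructor
      · rintro ⟨g, ⟨hg, hn⟩, rfl⟩
        refine ⟨hg, fun hh => hn ⟨hg, ?_, ?_⟩⟩
        · have := hh.1
          rw [hqq] at this
          exact mem_RM_two.1 this
        · intro a ha
          have := hh.2 a (mem_RM_one.2 ha)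
          rw [add_right_comm] at this
          exact this
      · rintro ⟨hf, hn⟩
        refine ⟨f + q, ⟨by rw [hqq]; exact hf, fun hh => hn ⟨mem_RM_two.2 hh.2.1, ?_⟩⟩, hqq f⟩
        intro a ha
        have := hh.2.2 a (mem_RM_one.1 ha)
        rw [add_right_comm, hqq] at this
        exact this
    have h2 := Set.ncard_image_of_injective
      ((S \ G : Finset ((Fin (2 * m) → ZMod 2) → ZMod 2)) : Set ((Fin (2 * m) → ZMod 2) → ZMod 2)) hinj
    rw [h1, Set.ncard_coe_finset] at h2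
    exact h2.symm
  have hGS : G ⊆ S := Finset.filter_subset _ _
  have hS1 : ∀ f ∈ S, (fun x => f x + 1) ∈ S := by
    intro f hf
    rw [hmemS] at hf ⊢
    have h1 := hcompl _ hf
    have h2 : (fun x => (f + q) x + 1) = (fun x => f x + 1) + q := by
      funext x
      simp only [Pi.add_apply]
      ring
    rwa [h2] at h1
  have hpow : (2 : ℤ) ^ (2 * m - 1) * 2 = 2 ^ (2 * m) := by
    rw [← pow_succ]
    congr 1
    omega
  have hpow2 : (2 : ℤ) ^ (m - 1) * 2 = 2 ^ m := by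
    rw [← pow_succ]
    congr 1
    omega
  have hup : ∀ f ∈ S, ∀ g ∈ S, g ≠ f → ∑ x, sg (f x + g x) ≤ 2 ^ m := by
    intro f hf g hg hne
    rw [hmemS] at hf hg
    have h1 := hdist _ hf _ hg fun he => hne (hinj he.symm)
    rw [tsub_le_iff_right] at h1
    have h2 : (2 : ℤ) ^ (2 * m - 1) ≤ (hammingDist (f + q) (g + q) : ℤ) + 2 ^ (m - 1) := by
      exact_mod_cast h1
    have h3 := sum_sg_dist (f + q) (g + q)
    have h4 : ∑ x, sg ((f + q) x + (g + q) x) = ∑ x, sg (f x + g x) := by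
      refine Finset.sum_congr rfl fun x _ => ?_
      congr 1
      simp only [Pi.add_apply]
      have := z2_add_self (q x)
      linear_combination this
    rw [h4, hV] at h3
    push_cast at h3
    rw [h3]
    linarith
  have hd : ∀ f ∈ S, ∀ g ∈ S, g ≠ f → g ≠ (fun x => f x + 1) →
      (∑ x, sg (f x + g x)) ^ 2 ≤ (Fintype.card (Fin (2 * m) → ZMod 2) : ℤ) := by
    intro f hf g hg hne hne'
    have h1 := hup f hf g hg hne
    have h2 := hup _ (hS1 f hf) g hg hne'
    have h3 : ∑ x, sg (f x + 1 + g x) = -∑ x, sg (f x + g x) := by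
      rw [← Finset.sum_neg_distrib]
      refine Finset.sum_congr rfl fun x _ => ?_
      have : ∀ s t : ZMod 2, sg (s + 1 + t) = -sg (s + t) := by decide
      exact this _ _
    rw [h3] at h2
    have h4 : (∑ x, sg (f x + g x)) ^ 2 ≤ ((2 : ℤ) ^ m) ^ 2 := sq_le_sq' (by linarith) h1
    rw [hV]
    push_cast
    calc (∑ x, sg (f x + g x)) ^ 2 ≤ ((2 : ℤ) ^ m) ^ 2 := h4
      _ = 2 ^ (2 * m) := by ring
  have hGq : ∀ f ∈ G, Quad f := by
    intro f hf
    exact (Finset.mem_filter.1 hf).2.1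
  have hG : ∀ f ∈ G, ∀ g, Aff g → f + g ∈ G := by
    intro f hf g hg
    have hf' := (Finset.mem_filter.1 hf).2
    refine Finset.mem_filter.2 ⟨hf'.2 g hg, hf'.1.add hg.quad, ?_⟩
    intro a ha
    rw [add_assoc]
    exact hf'.2 _ (hg.add ha)
  have hfew : S.card ≤ G.card + (2 ^ m + 1) * (2 * Fintype.card (Fin (2 * m) → ZMod 2)) := by
    have h1 := Finset.card_sdiff_add_card_eq_card hGS
    have h2 : 2 * Fintype.card (Fin (2 * m) → ZMod 2) = 2 ^ (2 * m + 1) := by
      rw [hV, pow_succ, mul_comm]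
    rw [h2]
    omega
  intro f hf
  have h1 := quad_of_few hm hV S G hGS hScard hS1 hd hGq hG hfew (f + q)
    ((hmemS _).2 (by rw [hqq]; exact hf))
  exact mem_RM_two.2 h1

end Pool.Agent.KrdIso
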