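import Pool.Agent.KrdIso.Defs

/-!
# P3: the counting lemma

`F` is a finite set of alternating bilinear forms such that the sum of any two different ones is
nonsingular, `N = card V`, `K = card F`, `a ≠ 0`, `l a = 0` and `l ≠ φ a` for all `φ ∈ F`. For
`b ≠ 0, a` let `m b` be the number of `k` with `k b = 0`, `(k + l) (a + b) = 0`, `k ≠ φ b`,
`k + l ≠ φ (a + b)` for all `φ ∈ F`. Then some `b` has `m b ≤ 1` if
`M ^ 2 - 3 M + 4 < N`, `M = N / 2 - K`.

Proof. `X b = {k | k b = 0 ∧ (k + l) (a + b) = 0}` has `N / 4` elements (`k b = 0`, `k a = l b`: two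
linear conditions, `a`, `b` independent: `b ≠ 0`, `b ≠ a`, `a ≠ 0`). By inclusion-exclusion
`m b = card (X b) - card (X b ∩ F b) - card (X b ∩ (F (a+b) + l)) + card (X b ∩ F b ∩ (F (a+b) +
l))`,
`F b = {φ b | φ ∈ F}`. The maps `φ ↦ φ b`, `φ ↦ φ (a + b)` are injective on `F`.
* `φ b ∈ X b` iff `φ b a = l b` (as `φ b b = 0`, `l a = 0`) iff `(φ a + l) b = 0`. For fixed `φ` the
  functional `φ a + l` is not zero, so there are `N / 2` such `b` in `V`, among them `0` and `a`:
`N / 2 - 2`.
* `φ (a + b) + l ∈ X b` iff `(φ (a + b) + l) b = 0` iff `(φ a + l) b = 0`: again `N / 2 - 2`.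
* `φ b = ψ (a + b) + l`: not possible for `φ = ψ` (it gives `φ a = l`); for `φ ≠ ψ` it says
  `(φ + ψ) b = ψ a + l` and holds for at most one `b` (`φ + ψ` is injective).
So `∑ m b ≤ (N - 2) * N / 4 - 2 * K * (N / 2 - 2) + K * (K - 1) = M ^ 2 - 3 * M + N < 2 * (N - 2)`,
and there are `N - 2` elements `b`.
-/

set_option autoImplicit false
set_option linter.unusedSectionVars false

namespace Pool.Agent.KrdIso

open Pool.Agent.Krd

variable {V : Type*} [AddCommGroup V] [Module (ZMod 2) V] [Fintype V] [DecidableEq V]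
  [Fintype (V →ₗ[ZMod 2] ZMod 2)] [DecidableEq (V →ₗ[ZMod 2] ZMod 2)]

private theorem sum_dual' {z : V} (hz : z ≠ 0) :
    ∑ l : V →ₗ[ZMod 2] ZMod 2, sg (l z) = 0 := by
  obtain ⟨l₀, h₀⟩ : ∃ l₀ : V →ₗ[ZMod 2] ZMod 2, l₀ z ≠ 0 := by
    by_contra hcon
    push Not at hcon
    exact hz ((Module.forall_dual_apply_eq_zero_iff (ZMod 2) z).1 hcon)
  have h₁ : l₀ z = 1 := (z2_cases (l₀ z)).resolve_left h₀
  have h2 : ∑ l : V →ₗ[ZMod 2] ZMod 2, sg ((l + l₀) z) = ∑ l : V →ₗ[ZMod 2] ZMod 2, sg (l z) :=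
    Equiv.sum_comp (Equiv.addRight l₀) fun l : V →ₗ[ZMod 2] ZMod 2 => sg (l z)
  have h3 : ∀ l : V →ₗ[ZMod 2] ZMod 2, sg ((l + l₀) z) = -sg (l z) := by
    intro l
    rw [LinearMap.add_apply, sg_add, h₁, sg_one]
    ring
  simp_rw [h3] at h2
  rw [Finset.sum_neg_distrib] at h2
  omega

private theorem sum_prim' {g : V →ₗ[ZMod 2] ZMod 2} (hg : g ≠ 0) : ∑ x : V, sg (g x) = 0 := by
  obtain ⟨v, hv⟩ : ∃ v : V, g v ≠ 0 := by
    by_contra hcon
    push Not at hcon
    exact hg (LinearMap.ext hcon)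
  have h₁ : g v = 1 := (z2_cases (g v)).resolve_left hv
  have h2 : ∑ x : V, sg (g (x + v)) = ∑ x : V, sg (g x) :=
    Equiv.sum_comp (Equiv.addRight v) fun x : V => sg (g x)
  have h3 : ∀ x : V, sg (g (x + v)) = -sg (g x) := by
    intro x
    rw [map_add, sg_add, h₁, sg_one]
    ring
  simp_rw [h3] at h2
  rw [Finset.sum_neg_distrib] at h2
  omega

private theorem card_dual' : Fintype.card (V →ₗ[ZMod 2] ZMod 2) = Fintype.card V := by
  rw [Module.card_eq_pow_finrank (K := ZMod 2) (V := V),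
    Module.card_eq_pow_finrank (K := ZMod 2) (V := V →ₗ[ZMod 2] ZMod 2)]
  congr 1
  exact Subspace.dual_finrank_eq

/-- The kernel of a nonzero functional. -/
private theorem card_ker' {g : V →ₗ[ZMod 2] ZMod 2} (hg : g ≠ 0) :
    2 * (Finset.univ.filter fun x : V => g x = 0).card = Fintype.card V := by
  have h1 : ((2 * (Finset.univ.filter fun x : V => g x = 0).card : ℕ) : ℤ) =
      ∑ x : V, (1 + sg (g x)) := by
    rw [Finset.card_filter]
    push_cast
    rw [Finset.mul_sum]
    refine Finset.sum_congr rfl fun x _ => ?_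
    rcases z2_cases (g x) with h | h
    · rw [h]; simp [sg]
    · rw [h]; simp [sg]
  rw [Finset.sum_add_distrib, sum_prim' hg, add_zero, Finset.sum_const, Finset.card_univ] at h1
  simp only [nsmul_eq_mul, mul_one] at h1
  exact_mod_cast h1

private theorem quarter' {a b : V} (ha : a ≠ 0) (hb : b ≠ 0) (hab : b ≠ a) (c : ZMod 2) :
    4 * (Finset.univ.filter fun k : V →ₗ[ZMod 2] ZMod 2 => k b = 0 ∧ k a = c).card =
      Fintype.card V := by
  have hab' : b + a ≠ 0 := by
    intro h
    apply hab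
    have h2 := add_self' a
    calc b = b + (a + a) := by rw [h2, add_zero]
      _ = (b + a) + a := by abel
      _ = a := by rw [h, zero_add]
  have key : ∀ s t : ZMod 2, (4 * (if s = 0 ∧ t = c then 1 else 0) : ℤ) =
      1 + sg s + sg t * sg c + sg (s + t) * sg c := by
    intro s t
    rcases z2_cases s with hs | hs <;> rcases z2_cases t with ht | ht <;>
      rcases z2_cases c with hc | hc <;> subst hs ht hc <;> decide
  have h1 : ((4 * (Finset.univ.filter fun k : V →ₗ[ZMod 2] ZMod 2 => k b = 0 ∧ k a = c).card :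
      ℕ) : ℤ) = ∑ k : V →ₗ[ZMod 2] ZMod 2, (1 + sg (k b) + sg (k a) * sg c +
        sg (k (b + a)) * sg c) := by
    rw [Finset.card_filter]
    push_cast
    rw [Finset.mul_sum]
    refine Finset.sum_congr rfl fun k _ => ?_
    rw [key, map_add]
  rw [Finset.sum_add_distrib, Finset.sum_add_distrib, Finset.sum_add_distrib, sum_dual' hb,
    ← Finset.sum_mul, ← Finset.sum_mul, sum_dual' ha, sum_dual' hab', zero_mul, add_zero, add_zero,
    add_zero, Finset.sum_const, Finset.card_univ, card_dual'] at h1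
  simp only [nsmul_eq_mul, mul_one] at h1
  exact_mod_cast h1

private theorem add_eq_zero' {W : Type*} [AddCommGroup W] [Module (ZMod 2) W] {x y : W}
    (h : x + y = 0) : x = y := by
  have h2 := add_self' y
  calc x = x + (y + y) := by rw [h2, add_zero]
    _ = (x + y) + y := by abel
    _ = y := by rw [h, zero_add]

theorem exists_few (F : Finset (V →ₗ[ZMod 2] V →ₗ[ZMod 2] ZMod 2)) {r M : ℕ}
    (hr : 3 ≤ r) (hV : Fintype.card V = 2 ^ r)
    (halt : ∀ φ ∈ F, ∀ v, φ v v = 0)
    (hsymm : ∀ φ ∈ F, ∀ u v, φ u v = φ v u)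
    (hns : ∀ φ ∈ F, ∀ ψ ∈ F, φ ≠ ψ → ∀ b, b ≠ 0 → φ b ≠ ψ b)
    (hF : F.card + M = 2 ^ (r - 1)) (hM : M ^ 2 + 4 < 2 ^ r + 3 * M)
    {a : V} (ha : a ≠ 0) {l : V →ₗ[ZMod 2] ZMod 2} (hl : l a = 0) (hla : ∀ φ ∈ F, φ a ≠ l) :
    ∃ b, b ≠ 0 ∧ b ≠ a ∧ (Finset.univ.filter fun k : V →ₗ[ZMod 2] ZMod 2 =>
      k b = 0 ∧ (k + l) (a + b) = 0 ∧ (∀ φ ∈ F, φ b ≠ k) ∧ ∀ φ ∈ F, φ (a + b) ≠ k + l).card ≤ 1 :=
by
  classical
  by_contra hcon
  push Not at hcon
  obtain ⟨s, rfl⟩ : ∃ s, r = s + 2 := ⟨r - 2, by omega⟩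
  set t : ℕ := 2 ^ s with ht
  have hN : Fintype.card V = 4 * t := by rw [hV, pow_add, ht]; ring
  have hF' : F.card + M = 2 * t := by
    rw [hF, show s + 2 - 1 = s + 1 by omega, pow_succ, ht]; ring
  have hM' : M ^ 2 + 4 < 4 * t + 3 * M := by
    have : 2 ^ (s + 2) = 4 * t := by rw [pow_add, ht]; ring
    rwa [this] at hM
  set B : Finset V := Finset.univ.filter (fun b => b ≠ 0 ∧ b ≠ a) with hBdef
  set P : V → Finset (V →ₗ[ZMod 2] V →ₗ[ZMod 2] ZMod 2) :=
    fun b => F.filter (fun φ => (φ a + l) b = 0) with hP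
  set Q : V → Finset ((V →ₗ[ZMod 2] V →ₗ[ZMod 2] ZMod 2) × (V →ₗ[ZMod 2] V →ₗ[ZMod 2] ZMod 2)) :=
    fun b => F.offDiag.filter (fun x => x.1 b = x.2 (a + b) + l) with hQ
  have hBcard : B.card + 2 = 4 * t := by
    have h1 : B = (Finset.univ.erase 0).erase a := by
      ext b
      simp only [hBdef, Finset.mem_filter, Finset.mem_univ, true_and, Finset.mem_erase, and_true]
      tauto
    rw [h1, Finset.card_erase_of_mem (Finset.mem_erase.2 ⟨ha, Finset.mem_univ _⟩),
      Finset.card_erase_of_mem (Finset.mem_univ _), Finset.card_univ, hN]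
    have : 1 ≤ t := Nat.one_le_two_pow
    omega
  have hφ : ∀ φ ∈ F, φ a + l ≠ 0 := fun φ hφ h => hla φ hφ (add_eq_zero' h)
  -- claim A
  have hA : ∀ b ∈ B, (Finset.univ.filter fun k : V →ₗ[ZMod 2] ZMod 2 =>
      k b = 0 ∧ (k + l) (a + b) = 0 ∧ (∀ φ ∈ F, φ b ≠ k) ∧ ∀ φ ∈ F, φ (a + b) ≠ k + l).card +
        2 * (P b).card ≤ t + (Q b).card := by
    intro b hb
    obtain ⟨-, hb0, hba⟩ := Finset.mem_filter.1 hb
    have hab0 : a + b ≠ 0 := fun h => hba (add_eq_zero' h).symm
    set Xb : Finset (V →ₗ[ZMod 2] ZMod 2) :=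
      Finset.univ.filter (fun k => k b = 0 ∧ k a = l b) with hX
    have hXc : Xb.card = t := by
      have h0 : 4 * Xb.card = Fintype.card V := by
        rw [← quarter' ha hb0 hba (l b), hX]
      omega
    have hXiff : ∀ k : V →ₗ[ZMod 2] ZMod 2, k ∈ Xb ↔ k b = 0 ∧ (k + l) (a + b) = 0 := by
      intro k
      have e : (k + l) (a + b) = k a + k b + l b := by
        rw [LinearMap.add_apply, map_add, map_add, hl, zero_add]
      have e2 := z2_add_self (l b)
      rw [e, hX, Finset.mem_filter]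
      constructor
      · rintro ⟨-, h1, h2⟩
        exact ⟨h1, by rw [h1, h2, add_zero, e2]⟩
      · rintro ⟨h1, h2⟩
        refine ⟨Finset.mem_univ _, h1, ?_⟩
        rw [h1, add_zero] at h2
        calc k a = k a + (l b + l b) := by rw [e2, add_zero]
          _ = (k a + l b) + l b := by ring
          _ = l b := by rw [h2, zero_add]
    set A1 : Finset (V →ₗ[ZMod 2] ZMod 2) := (P b).image (fun φ => φ b) with hA1
    set A2 : Finset (V →ₗ[ZMod 2] ZMod 2) := (P b).image (fun φ => φ (a + b) + l) with hA2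
    have hA1c : A1.card = (P b).card := by
      refine Finset.card_image_of_injOn ?_
      intro φ h1 ψ h2 h
      by_contra hne
      exact hns φ (Finset.mem_filter.1 h1).1 ψ (Finset.mem_filter.1 h2).1 hne b hb0 h
    have hA2c : A2.card = (P b).card := by
      refine Finset.card_image_of_injOn ?_
      intro φ h1 ψ h2 h
      by_contra hne
      exact hns φ (Finset.mem_filter.1 h1).1 ψ (Finset.mem_filter.1 h2).1 hne (a + b) hab0
        (add_right_cancel h)
    have hA1s : A1 ⊆ Xb := by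
      intro k hk
      obtain ⟨φ, hφP, rfl⟩ := Finset.mem_image.1 hk
      obtain ⟨hφF, h1⟩ := Finset.mem_filter.1 hφP
      refine (hXiff _).2 ⟨halt φ hφF b, ?_⟩
      rw [LinearMap.add_apply, map_add, map_add, halt φ hφF b, hl, hsymm φ hφF b a]
      rw [LinearMap.add_apply] at h1
      simpa using h1
    have hA2s : A2 ⊆ Xb := by
      intro k hk
      obtain ⟨φ, hφP, rfl⟩ := Finset.mem_image.1 hk
      obtain ⟨hφF, h1⟩ := Finset.mem_filter.1 hφP
      refine (hXiff _).2 ⟨?_, ?_⟩
      · rw [LinearMap.add_apply, map_add, LinearMap.add_apply, halt φ hφF b, add_zero]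
        rwa [LinearMap.add_apply] at h1
      · rw [add_assoc, add_self', add_zero, halt φ hφF (a + b)]
    have hint : (A1 ∩ A2).card ≤ (Q b).card := by
      refine (Finset.card_le_card ?_).trans (Finset.card_image_le (s := Q b) (f := fun x => x.1 b))
      intro k hk
      obtain ⟨h1, h2⟩ := Finset.mem_inter.1 hk
      obtain ⟨φ, hφP, rfl⟩ := Finset.mem_image.1 h1
      obtain ⟨ψ, hψP, h3⟩ := Finset.mem_image.1 h2
      have hφF := (Finset.mem_filter.1 hφP).1
      have hψF := (Finset.mem_filter.1 hψP).1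
      refine Finset.mem_image.2 ⟨(φ, ψ), ?_, rfl⟩
      refine Finset.mem_filter.2 ⟨Finset.mem_offDiag.2 ⟨hφF, hψF, ?_⟩, h3.symm⟩
      intro heq
      have heq' : φ = ψ := heq
      subst heq'
      apply hφ φ hφF
      rw [map_add] at h3
      have h5 : φ a + l + φ b = 0 + φ b := by
        rw [zero_add]
        calc φ a + l + φ b = φ a + φ b + l := by abel
          _ = φ b := h3
      exact add_right_cancel h5
    have hsub : (Finset.univ.filter fun k : V →ₗ[ZMod 2] ZMod 2 =>
        k b = 0 ∧ (k + l) (a + b) = 0 ∧ (∀ φ ∈ F, φ b ≠ k) ∧ ∀ φ ∈ F, φ (a + b) ≠ k + l) ⊆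
          Xb \ (A1 ∪ A2) := by
      intro k hk
      obtain ⟨-, h1, h2, h3, h4⟩ := Finset.mem_filter.1 hk
      rw [Finset.mem_sdiff, Finset.mem_union, not_or]
      refine ⟨(hXiff k).2 ⟨h1, h2⟩, ?_, ?_⟩
      · intro h
        obtain ⟨φ, hφP, h5⟩ := Finset.mem_image.1 h
        exact h3 φ (Finset.mem_filter.1 hφP).1 h5
      · intro h
        obtain ⟨φ, hφP, h5⟩ := Finset.mem_image.1 h
        apply h4 φ (Finset.mem_filter.1 hφP).1
        rw [← h5, add_assoc, add_self', add_zero]
    have h6 := Finset.card_le_card hsub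
    have h7 := Finset.card_sdiff_add_card_eq_card (Finset.union_subset hA1s hA2s)
    have h8 := Finset.card_union_add_card_inter A1 A2
    omega
  -- claim B
  have hB : ∑ b ∈ B, (P b).card + 2 * F.card = F.card * (2 * t) := by
    have h1 : ∑ b ∈ B, (P b).card = ∑ φ ∈ F, (B.filter fun b => (φ a + l) b = 0).card := by
      simp only [hP, Finset.card_filter]
      exact Finset.sum_comm
    have h2 : ∀ φ ∈ F, (B.filter fun b => (φ a + l) b = 0).card + 2 = 2 * t := by
      intro φ hφF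
      have h3 := card_ker' (hφ φ hφF)
      have h4 : (B.filter fun b => (φ a + l) b = 0) =
          ((Finset.univ.filter fun b : V => (φ a + l) b = 0).erase 0).erase a := by
        ext b
        simp only [hBdef, Finset.mem_filter, Finset.mem_univ, true_and, Finset.mem_erase]
        tauto
      have ha0 : (φ a + l) a = 0 := by
        rw [LinearMap.add_apply, halt φ hφF a, hl, add_zero]
      rw [h4, Finset.card_erase_of_mem, Finset.card_erase_of_mem]
      · have : 1 ≤ t := Nat.one_le_two_pow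
        omega
      · rw [Finset.mem_filter]
        exact ⟨Finset.mem_univ _, map_zero _⟩
      · rw [Finset.mem_erase, Finset.mem_filter]
        exact ⟨ha, Finset.mem_univ _, ha0⟩
    rw [h1]
    have h5 : ∑ φ ∈ F, ((B.filter fun b => (φ a + l) b = 0).card + 2) = ∑ φ ∈ F, 2 * t :=
      Finset.sum_congr rfl h2
    rw [Finset.sum_add_distrib, Finset.sum_const, Finset.sum_const, smul_eq_mul, smul_eq_mul] at h5
    linarith
  -- claim C
  have hC : ∑ b ∈ B, (Q b).card + F.card ≤ F.card * F.card := by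
    have h1 : ∑ b ∈ B, (Q b).card =
        ∑ x ∈ F.offDiag, (B.filter fun b => x.1 b = x.2 (a + b) + l).card := by
      simp only [hQ, Finset.card_filter]
      exact Finset.sum_comm
    have h2 : ∀ x ∈ F.offDiag, (B.filter fun b => x.1 b = x.2 (a + b) + l).card ≤ 1 := by
      intro x hx
      obtain ⟨hx1, hx2, hne⟩ := Finset.mem_offDiag.1 hx
      rw [Finset.card_le_one]
      intro b hb c hc
      have h3 := (Finset.mem_filter.1 hb).2
      have h4 := (Finset.mem_filter.1 hc).2
      by_contra hbc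
      have hbc' : b + c ≠ 0 := fun h => hbc (add_eq_zero' h)
      apply hns x.1 hx1 x.2 hx2 hne (b + c) hbc'
      rw [map_add, h3, h4, map_add, map_add, map_add]
      have e1 := add_self' (x.2 a)
      have e2 := add_self' l
      calc x.2 a + x.2 b + l + (x.2 a + x.2 c + l)
          = (x.2 a + x.2 a) + (l + l) + (x.2 b + x.2 c) := by abel
        _ = x.2 b + x.2 c := by rw [e1, e2, zero_add, zero_add]
    have h3 : ∑ x ∈ F.offDiag, (B.filter fun b => x.1 b = x.2 (a + b) + l).card ≤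
        F.offDiag.card := by
      have := Finset.sum_le_card_nsmul F.offDiag _ 1 h2
      simpa using this
    rw [Finset.offDiag_card] at h3
    rw [h1]
    have : F.card ≤ F.card * F.card := Nat.le_mul_self _
    omega
  -- conclusion
  have h1 : ∑ b ∈ B, (2 + 2 * (P b).card) ≤ ∑ b ∈ B, (t + (Q b).card) := by
    refine Finset.sum_le_sum fun b hb => ?_
    obtain ⟨-, hb0, hba⟩ := Finset.mem_filter.1 hb
    have h2 := hA b hb
    have h3 := hcon b hb0 hba
    omega
  rw [Finset.sum_add_distrib, Finset.sum_add_distrib, Finset.sum_const, Finset.sum_const,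
    ← Finset.mul_sum, smul_eq_mul, smul_eq_mul] at h1
  generalize (∑ b ∈ B, (P b).card) = p at *
  generalize (∑ b ∈ B, (Q b).card) = q at *
  generalize B.card = n at *
  generalize F.card = K at *
  zify at *
  have e1 : (n : ℤ) = 4 * t - 2 := by linarith
  have e2 : (K : ℤ) = 2 * t - M := by linarith
  have e3 : (p : ℤ) = K * (2 * t) - 2 * K := by linarith
  rw [e1, e3] at h1
  rw [e2] at h1 hC
  nlinarith

end Pool.Agent.KrdIso
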