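import Pool.Agent.Krd.Defs

/-!
# Isolation of the quadratic Kerdock codes: definitions

`w f a l` is the Walsh coefficient of the derivative `D a f` at the linear functional `l`.
-/

set_option autoImplicit false
set_option linter.unusedSectionVars false

namespace Pool.Agent.KrdIso

open Pool.Agent.Krd

/-- The Walsh coefficient of the derivative of `f` in the direction `a` at the functional `l`. -/
def w {V : Type*} [AddCommGroup V] [Module (ZMod 2) V] [Fintype V] (f : V → ZMod 2) (a : V)
    (l : V →ₗ[ZMod 2] ZMod 2) : ℤ :=
  ∑ x, sg (D a f x + l x)

end Pool.Agent.KrdIso
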