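import Pool.Agent.KrdIso.Defs

/-!
# P1: the design property of a self-complementary code with the Kerdock parameters

Write `N = card V`, `t f g = ∑ x, sg (f x + g x)`, `E` = the pairs `p = (x, y)` with `x ≠ y`
(`Finset.offDiag univ`), `u f g = ∑ p ∈ E, sg (f p.1 + f p.2 + g p.1 + g p.2)`. Then
`(t f g) ^ 2 = N + u f g` (all pairs `(x, y)`, the diagonal gives `N`). Put
`T = ∑ f ∈ S, ∑ g ∈ S, (t f g) ^ 2 * ((t f g) ^ 2 - N) = ∑ ∑ (N * u + u ^ 2)`.
* upper bound: for `g = f` or `g = f + 1` one has `(t f g) ^ 2 = N ^ 2`, for all other pairs the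
  product is `≤ 0` by `hd` (both factors: `0 ≤ t ^ 2`, `t ^ 2 ≤ N`). So
  `T ≤ 2 * card S * (N ^ 2 * (N ^ 2 - N))`, and `card S = N ^ 2`.
* lower bound: `∑ f g, u f g = ∑ p ∈ E, (∑ f ∈ S, sg (f p.1 + f p.2)) ^ 2 ≥ 0` and
  `∑ f g, (u f g) ^ 2 = ∑ p ∈ E, ∑ p' ∈ E, (∑ f ∈ S, sg (f p.1 + f p.2 + f p'.1 + f p'.2)) ^ 2`; the
  terms with `p' = p` and `p' = p.swap` are `(card S) ^ 2` each, there are `2 * N * (N - 1)` of them
  (`p ≠ p.swap` for `p ∈ E`), and they already give the upper bound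
  `2 * N * (N - 1) * N ^ 4 = 2 * N ^ 2 * N ^ 2 * (N ^ 2 - N)`. So all other terms vanish.
-/

set_option autoImplicit false
set_option linter.unusedSectionVars false

namespace Pool.Agent.KrdIso

open Pool.Agent.Krd

private theorem sg_mul (s t : ZMod 2) : sg s * sg t = sg (s + t) := by
  revert s t; decide

private theorem sg_sq (s : ZMod 2) : sg s ^ 2 = 1 := by
  revert s; decide

variable {V : Type*} [Fintype V] [DecidableEq V]

private theorem sq_sum (a : V → ZMod 2) :
    (∑ x, sg (a x)) ^ 2 =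
      (Fintype.card V : ℤ) + ∑ p ∈ (Finset.univ : Finset V).offDiag, sg (a p.1 + a p.2) := by
  have h1 : (∑ x, sg (a x)) ^ 2 =
      ∑ p ∈ (Finset.univ : Finset V) ×ˢ Finset.univ, sg (a p.1 + a p.2) := by
    rw [sq, Finset.sum_mul_sum, Finset.sum_product]
    exact Finset.sum_congr rfl fun x _ => Finset.sum_congr rfl fun y _ => sg_mul _ _
  rw [h1, ← Finset.diag_union_offDiag, Finset.sum_union (Finset.disjoint_diag_offDiag _),
    Finset.sum_diag]
  congr 1
  simp only [z2_add_self]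
  simp [sg]

/-- the pair sums -/
private def uu (f g : V → ZMod 2) : ℤ :=
  ∑ p ∈ (Finset.univ : Finset V).offDiag, sg (f p.1 + f p.2 + (g p.1 + g p.2))

private theorem t_sq (f g : V → ZMod 2) :
    (∑ x, sg (f x + g x)) ^ 2 = (Fintype.card V : ℤ) + uu f g := by
  rw [sq_sum fun x => f x + g x, uu]
  congr 1
  exact Finset.sum_congr rfl fun p _ => by rw [add_add_add_comm]

private theorem sum_uu_nonneg (S : Finset (V → ZMod 2)) :
    0 ≤ ∑ f ∈ S, ∑ g ∈ S, uu f g := by
  have h : ∑ f ∈ S, ∑ g ∈ S, uu f g =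
      ∑ p ∈ (Finset.univ : Finset V).offDiag, (∑ f ∈ S, sg (f p.1 + f p.2)) ^ 2 := by
    simp only [uu]
    rw [Finset.sum_congr rfl fun f _ => Finset.sum_comm, Finset.sum_comm]
    refine Finset.sum_congr rfl fun p _ => ?_
    rw [sq, Finset.sum_mul_sum]
    exact Finset.sum_congr rfl fun x _ => Finset.sum_congr rfl fun y _ => (sg_mul _ _).symm
  rw [h]
  exact Finset.sum_nonneg fun _ _ => sq_nonneg _

/-- the fourfold sums -/
private def cc (S : Finset (V → ZMod 2)) (p q : V × V) : ℤ :=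
  ∑ f ∈ S, sg (f p.1 + f p.2 + (f q.1 + f q.2))

private theorem sum_uu_sq (S : Finset (V → ZMod 2)) :
    ∑ f ∈ S, ∑ g ∈ S, (uu f g) ^ 2 =
      ∑ p ∈ (Finset.univ : Finset V).offDiag, ∑ q ∈ (Finset.univ : Finset V).offDiag,
        (cc S p q) ^ 2 := by
  have h1 : ∀ f g : V → ZMod 2, (uu f g) ^ 2 =
      ∑ p ∈ (Finset.univ : Finset V).offDiag, ∑ q ∈ (Finset.univ : Finset V).offDiag,
        sg (f p.1 + f p.2 + (f q.1 + f q.2)) * sg (g p.1 + g p.2 + (g q.1 + g q.2)) := by
    intro f g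
    rw [uu, sq, Finset.sum_mul_sum]
    refine Finset.sum_congr rfl fun p _ => Finset.sum_congr rfl fun q _ => ?_
    rw [sg_mul, sg_mul, add_add_add_comm]
  have h2 : ∀ p q : V × V, (cc S p q) ^ 2 = ∑ f ∈ S, ∑ g ∈ S,
      sg (f p.1 + f p.2 + (f q.1 + f q.2)) * sg (g p.1 + g p.2 + (g q.1 + g q.2)) := by
    intro p q
    rw [cc, sq, Finset.sum_mul_sum]
  simp only [h1, h2]
  rw [Finset.sum_congr rfl fun f _ => Finset.sum_comm, Finset.sum_comm]
  refine Finset.sum_congr rfl fun p _ => ?_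
  rw [Finset.sum_congr rfl fun f _ => Finset.sum_comm, Finset.sum_comm]

private theorem cc_self (S : Finset (V → ZMod 2)) (p : V × V) : cc S p p = S.card := by
  simp only [cc, z2_add_self]
  simp [sg]

private theorem cc_swap (S : Finset (V → ZMod 2)) (p : V × V) : cc S p p.swap = S.card := by
  have : cc S p p.swap = cc S p p := by
    refine Finset.sum_congr rfl fun f _ => ?_
    rw [Prod.fst_swap, Prod.snd_swap, add_comm (f p.2) (f p.1)]
  rw [this, cc_self]

theorem design {V : Type*} [Fintype V] [DecidableEq V] (S : Finset (V → ZMod 2))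
    (hS : S.card = Fintype.card V ^ 2) (hc : ∀ f ∈ S, (fun x => f x + 1) ∈ S)
    (hd : ∀ f ∈ S, ∀ g ∈ S, g ≠ f → g ≠ (fun x => f x + 1) →
      (∑ x, sg (f x + g x)) ^ 2 ≤ Fintype.card V)
    {x y z u : V} (hxy : x ≠ y) (hzu : z ≠ u) (h1 : ¬ (z = x ∧ u = y)) (h2 : ¬ (z = y ∧ u = x)) :
    ∑ f ∈ S, sg (f x + f y + f z + f u) = 0 := by
  set N : ℤ := (Fintype.card V : ℤ) with hN
  have hSN : (S.card : ℤ) = N ^ 2 := by rw [hS]; push_cast; rfl
  -- upper bound
  have hNN : 0 ≤ N ^ 2 - N := by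
    have : (1 : ℤ) ≤ N := by
      have := Fintype.card_pos_iff.2 ⟨x⟩
      rw [hN]; exact_mod_cast this
    nlinarith
  have hK : 0 ≤ N ^ 2 * (N ^ 2 - N) := mul_nonneg (sq_nonneg _) hNN
  have hup : ∀ f ∈ S, ∑ g ∈ S, (N + uu f g) * uu f g ≤ 2 * (N ^ 2 * (N ^ 2 - N)) := by
    intro f hf
    have hterm : ∀ g ∈ S, (N + uu f g) * uu f g ≤
        if g = f ∨ g = (fun x => f x + 1) then N ^ 2 * (N ^ 2 - N) else 0 := by
      intro g hg
      have ht := t_sq f g
      rw [← hN] at ht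
      split_ifs with hcase
      · have ht2 : (∑ x, sg (f x + g x)) ^ 2 = N ^ 2 := by
          rcases hcase with rfl | rfl
          · simp only [z2_add_self]
            simp [sg, hN]
          · have : ∀ x, f x + (f x + 1) = 1 := fun x => by
              rw [← add_assoc, z2_add_self, zero_add]
            simp only [this]
            simp [sg, hN]
        have hu : uu f g = N ^ 2 - N := by linarith
        rw [hu]
        apply le_of_eq
        ring
      · push Not at hcase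
        have hle := hd f hf g hg hcase.1 hcase.2
        rw [ht] at hle
        have h0 : 0 ≤ N + uu f g := by rw [← ht]; exact sq_nonneg _
        have h3 : uu f g ≤ 0 := by linarith
        exact mul_nonpos_of_nonneg_of_nonpos h0 h3
    refine (Finset.sum_le_sum hterm).trans ?_
    rw [← Finset.sum_filter, Finset.sum_const, nsmul_eq_mul]
    refine mul_le_mul_of_nonneg_right ?_ hK
    have hsub : (S.filter fun g => g = f ∨ g = (fun x => f x + 1)) ⊆
        {f, fun x => f x + 1} := by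
      intro g hg
      rw [Finset.mem_filter] at hg
      simpa using hg.2
    have := (Finset.card_le_card hsub).trans Finset.card_le_two
    exact_mod_cast this
  have hT : ∑ f ∈ S, ∑ g ∈ S, (N + uu f g) * uu f g ≤ N ^ 2 * (2 * (N ^ 2 * (N ^ 2 - N))) := by
    refine (Finset.sum_le_sum hup).trans ?_
    rw [Finset.sum_const, nsmul_eq_mul, hSN]
  have hT2 : ∑ f ∈ S, ∑ g ∈ S, (N + uu f g) * uu f g =
      N * ∑ f ∈ S, ∑ g ∈ S, uu f g + ∑ f ∈ S, ∑ g ∈ S, (uu f g) ^ 2 := by
    simp only [Finset.mul_sum, ← Finset.sum_add_distrib]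
    exact Finset.sum_congr rfl fun f _ => Finset.sum_congr rfl fun g _ => by ring
  have hN0 : 0 ≤ N := by rw [hN]; positivity
  have hlow := mul_nonneg hN0 (sum_uu_nonneg S)
  rw [hT2, sum_uu_sq] at hT
  -- lower bound
  set E := (Finset.univ : Finset V).offDiag with hE
  have hmemE : ∀ p : V × V, p ∈ E ↔ p.1 ≠ p.2 := fun p => by simp [hE]
  have hpair : ∀ p ∈ E, p ≠ p.swap := by
    intro p hp h
    exact (hmemE p).1 hp (by have := congrArg Prod.fst h; simpa using this)
  have hG : ∀ p ∈ E, 0 ≤ ∑ q ∈ E, (cc S p q) ^ 2 - 2 * (N ^ 2) ^ 2 := by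
    intro p hp
    have hsub : ({p, p.swap} : Finset (V × V)) ⊆ E := by
      intro q hq
      rw [Finset.mem_insert, Finset.mem_singleton] at hq
      rcases hq with rfl | rfl
      · exact hp
      · exact (hmemE _).2 fun h => (hmemE p).1 hp h.symm
    have := Finset.sum_le_sum_of_subset_of_nonneg (f := fun q => (cc S p q) ^ 2) hsub
      fun _ _ _ => sq_nonneg _
    rw [Finset.sum_pair (hpair p hp), cc_self, cc_swap, hSN] at this
    linarith
  have hxyE : (x, y) ∈ E := (hmemE _).2 hxy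
  have hzuE : (z, u) ∈ E := (hmemE _).2 hzu
  have hG0 : (cc S (x, y) (z, u)) ^ 2 ≤
      ∑ q ∈ E, (cc S (x, y) q) ^ 2 - 2 * (N ^ 2) ^ 2 := by
    have hne1 : (x, y) ≠ (z, u) := fun h => h1 (by simpa [eq_comm] using h)
    have hne2 : ((x, y) : V × V).swap ≠ (z, u) := fun h => by
      have h3 := Prod.ext_iff.1 h
      exact h2 ⟨h3.1.symm, h3.2.symm⟩
    have hsub : ({(x, y), ((x, y) : V × V).swap, (z, u)} : Finset (V × V)) ⊆ E := by
      intro q hq
      simp only [Finset.mem_insert, Finset.mem_singleton] at hq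
      rcases hq with rfl | rfl | rfl
      · exact hxyE
      · exact (hmemE _).2 fun h => hxy h.symm
      · exact hzuE
    have := Finset.sum_le_sum_of_subset_of_nonneg (f := fun q => (cc S (x, y) q) ^ 2) hsub
      fun _ _ _ => sq_nonneg _
    rw [Finset.sum_insert (by
        simp only [Finset.mem_insert, Finset.mem_singleton, not_or]
        exact ⟨hpair _ hxyE, hne1⟩), Finset.sum_pair hne2, cc_self, cc_swap, hSN] at this
    linarith
  have hsum : (cc S (x, y) (z, u)) ^ 2 ≤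
      ∑ p ∈ E, (∑ q ∈ E, (cc S p q) ^ 2 - 2 * (N ^ 2) ^ 2) :=
    hG0.trans (Finset.single_le_sum (f := fun p => ∑ q ∈ E, (cc S p q) ^ 2 - 2 * (N ^ 2) ^ 2)
      hG hxyE)
  rw [Finset.sum_sub_distrib, Finset.sum_const, nsmul_eq_mul] at hsum
  have hcardE : (E.card : ℤ) = N * N - N := by
    rw [hE, Finset.offDiag_card, Finset.card_univ,
      Nat.cast_sub (Nat.le_mul_self _), Nat.cast_mul]
  rw [hcardE] at hsum
  have hzero : (cc S (x, y) (z, u)) ^ 2 ≤ 0 := by nlinarith
  have hcc : cc S (x, y) (z, u) = 0 := by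
    have := sq_nonneg (cc S (x, y) (z, u))
    exact pow_eq_zero_iff (two_ne_zero) |>.1 (le_antisymm hzero this)
  rw [← hcc]
  exact Finset.sum_congr rfl fun f _ => by rw [add_assoc (f x + f y)]

end Pool.Agent.KrdIso
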