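import Pool.Agent.KrdIso.Defs
import Pool.Agent.Krd.Bil

/-!
# The bilinear form of a quadratic function and the cosets of the affine functions
-/

set_option autoImplicit false
set_option linter.unusedSectionVars false

namespace Pool.Agent.KrdIso

open Pool.Agent.Krd

section form

variable {V : Type*} [AddCommGroup V] [Module (ZMod 2) V]

theorem exists_form {f : V → ZMod 2} (hf : Quad f) :
    ∃ φ : V →ₗ[ZMod 2] V →ₗ[ZMod 2] ZMod 2, (∀ a x, D a f x = φ a x + D a f 0) ∧
      (∀ v, φ v v = 0) ∧ ∀ u v, φ u v = φ v u := by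
  have hU : (⊤ : Submodule (ZMod 2) V) ≤ rad f := by
    rw [quad_iff_rad_eq_top] at hf
    rw [hf]
  obtain ⟨B, hB⟩ := exists_bil hU
  have hB' : ∀ u x y : V, D x (D u f) y = B ⟨u, trivial⟩ x := fun u x y => hB ⟨u, trivial⟩ x y
  refine ⟨{ toFun := fun a => B ⟨a, trivial⟩, map_add' := ?_, map_smul' := ?_ }, ?_, ?_, ?_⟩
  · intro a b
    rw [← map_add]
    rfl
  · intro c a
    rw [RingHom.id_apply, ← map_smul]
    rfl
  · intro a x
    have h := hB' a x 0
    rw [D_apply, zero_add] at h
    have h2 := z2_add_self (D a f 0)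
    change D a f x = B ⟨a, trivial⟩ x + D a f 0
    linear_combination h - h2
  · intro v
    exact bil_self hB ⟨v, trivial⟩
  · intro u v
    exact bil_symm hB ⟨u, trivial⟩ ⟨v, trivial⟩

/-- Quadratic functions with the same form differ by an affine function. -/
theorem aff_of_same_form {f g : V → ZMod 2} {φ : V →ₗ[ZMod 2] V →ₗ[ZMod 2] ZMod 2}
    (hf : ∀ a x, D a f x = φ a x + D a f 0) (hg : ∀ a x, D a g x = φ a x + D a g 0) :
    Aff (f + g) := by
  have hc : ∀ a x, D a (f + g) x = D a f 0 + D a g 0 := by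
    intro a x
    rw [D_add, Pi.add_apply, hf a x, hg a x]
    have := z2_add_self (φ a x)
    linear_combination this
  intro b a x
  rw [D_apply, hc a x, hc a (x + b)]
  exact z2_add_self _

/-- Adding an affine function does not change the form. -/
theorem form_add_aff {f g : V → ZMod 2} {φ : V →ₗ[ZMod 2] V →ₗ[ZMod 2] ZMod 2}
    (hf : ∀ a x, D a f x = φ a x + D a f 0) (hg : Aff g) :
    ∀ a x, D a (f + g) x = φ a x + D a (f + g) 0 := by
  intro a x
  have h := hg x a 0
  rw [D_apply, zero_add] at h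
  have h2 := z2_add_self (D a g x)
  rw [D_add, Pi.add_apply, Pi.add_apply, hf a x]
  linear_combination h2 - h

theorem aff_lin (l : V →ₗ[ZMod 2] ZMod 2) (c : ZMod 2) : Aff (fun x => l x + c) := by
  intro u v x
  simp only [D, map_add]
  have h1 := z2_add_self (l x)
  have h2 := z2_add_self (l u)
  have h3 := z2_add_self (l v)
  have h4 := z2_add_self c
  linear_combination 2 * h1 + h2 + h3 + 2 * h4

theorem form_ext {f : V → ZMod 2} {φ ψ : V →ₗ[ZMod 2] V →ₗ[ZMod 2] ZMod 2}
    (hf : ∀ a x, D a f x = φ a x + D a f 0) (hg : ∀ a x, D a f x = ψ a x + D a f 0) : φ = ψ := by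
  refine LinearMap.ext fun a => LinearMap.ext fun x => ?_
  have h1 := hf a x
  rw [hg a x] at h1
  exact (add_right_cancel h1).symm

end form

section coset

variable {V : Type*} [AddCommGroup V] [Module (ZMod 2) V] [Fintype V] [DecidableEq V]
  [Fintype (V →ₗ[ZMod 2] ZMod 2)]

theorem card_dual' : Fintype.card (V →ₗ[ZMod 2] ZMod 2) = Fintype.card V := by
  rw [Module.card_eq_pow_finrank (K := ZMod 2) (V := V),
    Module.card_eq_pow_finrank (K := ZMod 2) (V := V →ₗ[ZMod 2] ZMod 2)]
  congr 1
  exact Subspace.dual_finrank_eq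

/-- The functions of `G` with a given form are a full coset of the affine functions. -/
theorem card_fiber (G : Finset (V → ZMod 2)) (hG : ∀ f ∈ G, ∀ g, Aff g → f + g ∈ G)
    (Φ : (V → ZMod 2) → V →ₗ[ZMod 2] V →ₗ[ZMod 2] ZMod 2)
    (hΦ : ∀ f ∈ G, ∀ a x, D a f x = Φ f a x + D a f 0)
    [DecidableEq (V →ₗ[ZMod 2] V →ₗ[ZMod 2] ZMod 2)] {f : V → ZMod 2} (hf : f ∈ G) :
    (G.filter fun g => Φ g = Φ f).card = 2 * Fintype.card V := by
  classical
  have hinj : Function.Injective
      (fun p : (V →ₗ[ZMod 2] ZMod 2) × ZMod 2 => f + fun x => p.1 x + p.2) := by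
    rintro ⟨l, c⟩ ⟨l', c'⟩ h
    have h' : ∀ x, l x + c = l' x + c' := by
      intro x
      have h1 := congrFun h x
      simp only [Pi.add_apply] at h1
      exact add_left_cancel h1
    have hcc : c = c' := by
      have h0 := h' 0
      rw [map_zero, map_zero, zero_add, zero_add] at h0
      exact h0
    subst hcc
    refine Prod.ext (LinearMap.ext fun x => add_right_cancel (h' x)) rfl
  have himg : G.filter (fun g => Φ g = Φ f) =
      Finset.univ.image (fun p : (V →ₗ[ZMod 2] ZMod 2) × ZMod 2 => f + fun x => p.1 x + p.2) := by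
    ext g
    simp only [Finset.mem_filter, Finset.mem_image, Finset.mem_univ, true_and]
    constructor
    · rintro ⟨hg, he⟩
      have h1 : Aff (f + g) := aff_of_same_form (hΦ f hf) (by rw [← he]; exact hΦ g hg)
      obtain ⟨l, hl⟩ := h1.exists_linear
      refine ⟨(l, (f + g) 0), ?_⟩
      funext x
      have h2 := hl x
      rw [Pi.add_apply] at h2 ⊢
      have h3 := z2_add_self (f x)
      simp only
      linear_combination h3 - h2
    · rintro ⟨⟨l, c⟩, rfl⟩
      have hmem := hG f hf _ (aff_lin l c)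
      exact ⟨hmem, form_ext (hΦ _ hmem) (form_add_aff (hΦ f hf) (aff_lin l c))⟩
  rw [himg, Finset.card_image_of_injective _ hinj, Finset.card_univ, Fintype.card_prod,
    card_dual', ZMod.card, mul_comm]

end coset

end Pool.Agent.KrdIso
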