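import Pool.Agent.KrdIso.Defs

/-!
# P2: the Walsh coefficients of the derivatives

`sum_dual` (as in `Pool.Agent.Krd.Walsh`, where it is private): `∑ l, sg (l z) = 0` for `z ≠ 0` and
`= card V` for `z = 0`.

* `conv`: the right side is
  `∑ k, ∑ x, ∑ y, sg (D b f x + k x + D (a + b) f y + (k + l) y + (k + l) b)`
  `= ∑ x y, sg (D b f x + D (a + b) f y + l (y + b)) * ∑ k, sg (k (x + y + b))`, only `y = x + b`
  remains, and `D b f x + D (a + b) f (x + b) = D a f x`.
* `col_sum`:
  `∑ f, (w f a l) ^ 2 = ∑ x y, sg (l (x + y)) * ∑ f, sg (f x + f (x+a) + f y + f (y+a))`; the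
  inner sum is `card S` for `y = x` and for `y = x + a` and zero otherwise by `hdes`.
* `parseval`: `∑ l, (w f a l) ^ 2 = ∑ x y, sg (D a f x + D a f y) * ∑ l, sg (l (x + y))`.
* `w_eq_zero`: substitute `x + a` for `x` (`D_shift`).
-/

set_option autoImplicit false
set_option linter.unusedSectionVars false

namespace Pool.Agent.KrdIso

open Pool.Agent.Krd

variable {V : Type*} [AddCommGroup V] [Module (ZMod 2) V] [Fintype V] [DecidableEq V]
  [Fintype (V →ₗ[ZMod 2] ZMod 2)]

private theorem sum_dual {z : V} (hz : z ≠ 0) :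
    ∑ l : V →ₗ[ZMod 2] ZMod 2, sg (l z) = 0 := by
  obtain ⟨l₀, h₀⟩ : ∃ l₀ : V →ₗ[ZMod 2] ZMod 2, l₀ z ≠ 0 := by
    by_contra hcon
    push Not at hcon
    exact hz ((Module.forall_dual_apply_eq_zero_iff (ZMod 2) z).1 hcon)
  have h₁ : l₀ z = 1 := (z2_cases (l₀ z)).resolve_left h₀
  have h2 : ∑ l : V →ₗ[ZMod 2] ZMod 2, sg ((l + l₀) z) = ∑ l : V →ₗ[ZMod 2] ZMod 2, sg (l z) :=
    Equiv.sum_comp (Equiv.addRight l₀) fun l : V →ₗ[ZMod 2] ZMod 2 => sg (l z)
  have h3 : ∀ l : V →ₗ[ZMod 2] ZMod 2, sg ((l + l₀) z) = -sg (l z) := by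
    intro l
    rw [LinearMap.add_apply, sg_add, h₁, sg_one]
    ring
  simp_rw [h3] at h2
  rw [Finset.sum_neg_distrib] at h2
  omega

private theorem card_dual :
    Fintype.card (V →ₗ[ZMod 2] ZMod 2) = Fintype.card V := by
  rw [Module.card_eq_pow_finrank (K := ZMod 2) (V := V),
    Module.card_eq_pow_finrank (K := ZMod 2) (V := V →ₗ[ZMod 2] ZMod 2)]
  congr 1
  exact Subspace.dual_finrank_eq

private theorem sum_dual_zero {z : V} (hz : z = 0) :
    ∑ l : V →ₗ[ZMod 2] ZMod 2, sg (l z) = Fintype.card V := by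
  subst hz
  simp only [map_zero, sg_zero]
  rw [Finset.sum_const, Finset.card_univ, card_dual, nsmul_eq_mul, mul_one]

private theorem eq_of_add_eq_zero {x y : V} (h : x + y = 0) : y = x := by
  have h1 : x + (x + y) = x := by rw [h, add_zero]
  rwa [← add_assoc, add_self', zero_add] at h1

theorem conv (f : V → ZMod 2) (a b : V) (l : V →ₗ[ZMod 2] ZMod 2) :
    (Fintype.card V : ℤ) * w f a l =
      ∑ k : V →ₗ[ZMod 2] ZMod 2, sg ((k + l) b) * (w f b k * w f (a + b) (k + l)) := by
  have h1 : ∀ k : V →ₗ[ZMod 2] ZMod 2, sg ((k + l) b) * (w f b k * w f (a + b) (k + l)) =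
      ∑ x, ∑ y, sg (D b f x) * sg (D (a + b) f y) * sg (l y) * sg (l b) * sg (k (x + y + b)) := by
    intro k
    rw [w, w, Finset.sum_mul_sum, Finset.mul_sum]
    refine Finset.sum_congr rfl fun x _ => ?_
    rw [Finset.mul_sum]
    refine Finset.sum_congr rfl fun y _ => ?_
    simp only [map_add, sg_add, LinearMap.add_apply]
    ring
  simp_rw [h1]
  rw [Finset.sum_comm, w, Finset.mul_sum]
  refine Finset.sum_congr rfl fun x _ => ?_
  rw [Finset.sum_comm, Finset.sum_eq_single (x + b)]
  · rw [← Finset.mul_sum]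
    have h2 : x + (x + b) + b = 0 := by
      rw [← add_assoc, add_self', zero_add, add_self']
    rw [sum_dual_zero h2]
    have h3 : D b f x + D (a + b) f (x + b) = D a f x := by
      simp only [D]
      have e1 : x + b + (a + b) = x + a := by
        have := add_self' b
        calc x + b + (a + b) = x + a + (b + b) := by abel
          _ = x + a := by rw [this, add_zero]
      rw [e1]
      have := z2_add_self (f (x + b))
      linear_combination this
    rw [← h3, map_add, sg_add, sg_add, sg_add]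
    have h4 := sg_mul_self (l b)
    linear_combination (-(Fintype.card V : ℤ) * sg (D b f x) * sg (D (a + b) f (x + b)) *
      sg (l x)) * h4
  · intro y _ hy
    rw [← Finset.mul_sum, sum_dual, mul_zero]
    intro h0
    apply hy
    have h3 : (x + b) + y = 0 := by rw [← h0]; abel
    exact eq_of_add_eq_zero h3
  · intro h
    exact absurd (Finset.mem_univ _) h

theorem col_sum (S : Finset (V → ZMod 2))
    (hdes : ∀ x y z u : V, x ≠ y → z ≠ u → ¬ (z = x ∧ u = y) → ¬ (z = y ∧ u = x) →
      ∑ f ∈ S, sg (f x + f y + f z + f u) = 0)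
    {a : V} (ha : a ≠ 0) (l : V →ₗ[ZMod 2] ZMod 2) :
    ∑ f ∈ S, (w f a l) ^ 2 = (Fintype.card V : ℤ) * S.card * (1 + sg (l a)) := by
  have h1 : ∀ f : V → ZMod 2, (w f a l) ^ 2 =
      ∑ x, ∑ y, sg (l (x + y)) * sg (f x + f (x + a) + f y + f (y + a)) := by
    intro f
    rw [w, sq, Finset.sum_mul_sum]
    refine Finset.sum_congr rfl fun x _ => Finset.sum_congr rfl fun y _ => ?_
    simp only [D, map_add, sg_add]
    ring
  simp_rw [h1]
  rw [Finset.sum_comm]
  have h2 : ∀ x ∈ (Finset.univ : Finset V),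
      ∑ f ∈ S, ∑ y, sg (l (x + y)) * sg (f x + f (x + a) + f y + f (y + a)) =
        S.card * (1 + sg (l a)) := by
    intro x _
    rw [Finset.sum_comm]
    simp only [← Finset.mul_sum]
    have hne : x ≠ x + a := fun h => ha (by simpa using h)
    rw [← Finset.sum_subset (Finset.subset_univ {x, x + a}), Finset.sum_pair hne]
    · have e1 : ∀ f ∈ S, sg (f x + f (x + a) + f x + f (x + a)) = 1 := by
        intro f _
        generalize f x = p
        generalize f (x + a) = q
        revert p q; decide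
      have e2 : ∀ f ∈ S, sg (f x + f (x + a) + f (x + a) + f (x + a + a)) = 1 := by
        intro f _
        rw [add_assoc x a a, add_self', add_zero]
        generalize f x = p
        generalize f (x + a) = q
        revert p q; decide
      rw [Finset.sum_congr rfl e1, Finset.sum_congr rfl e2, add_self', map_zero, sg_zero,
        ← add_assoc, add_self', zero_add, Finset.sum_const, nsmul_eq_mul]
      ring
    · intro y _ hy
      rw [Finset.mem_insert, Finset.mem_singleton, not_or] at hy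
      rw [hdes x (x + a) y (y + a) hne (fun h => ha (by simpa using h))
        (fun h => hy.1 h.1) (fun h => hy.2 h.1), mul_zero]
  rw [Finset.sum_congr rfl h2, Finset.sum_const, Finset.card_univ, nsmul_eq_mul]
  ring

theorem parseval (f : V → ZMod 2) (a : V) :
    ∑ l : V →ₗ[ZMod 2] ZMod 2, (w f a l) ^ 2 = (Fintype.card V : ℤ) ^ 2 := by
  have h1 : ∀ l : V →ₗ[ZMod 2] ZMod 2, (w f a l) ^ 2 =
      ∑ x, ∑ y, sg (D a f x) * sg (D a f y) * sg (l (x + y)) := by
    intro l
    rw [w, sq, Finset.sum_mul_sum]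
    refine Finset.sum_congr rfl fun x _ => Finset.sum_congr rfl fun y _ => ?_
    simp only [map_add, sg_add]
    ring
  simp_rw [h1]
  rw [Finset.sum_comm]
  have h2 : ∀ x ∈ (Finset.univ : Finset V),
      ∑ l : V →ₗ[ZMod 2] ZMod 2, ∑ y, sg (D a f x) * sg (D a f y) * sg (l (x + y)) =
        Fintype.card V := by
    intro x _
    rw [Finset.sum_comm, Finset.sum_eq_single x]
    · rw [← Finset.mul_sum, sum_dual_zero (add_self' x), sg_mul_self, one_mul]
    · intro y _ hy
      rw [← Finset.mul_sum, sum_dual, mul_zero]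
      exact fun h0 => hy (eq_of_add_eq_zero h0)
    · intro h
      exact absurd (Finset.mem_univ _) h
  rw [Finset.sum_congr rfl h2, Finset.sum_const, Finset.card_univ, nsmul_eq_mul]
  ring

theorem w_eq_zero (f : V → ZMod 2) {a : V} {l : V →ₗ[ZMod 2] ZMod 2} (h : l a ≠ 0) :
    w f a l = 0 := by
  have h₁ : l a = 1 := (z2_cases (l a)).resolve_left h
  have h2 : ∑ x, sg (D a f (x + a) + l (x + a)) = ∑ x, sg (D a f x + l x) :=
    Equiv.sum_comp (Equiv.addRight a) fun x => sg (D a f x + l x)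
  have h3 : ∀ x, sg (D a f (x + a) + l (x + a)) = -sg (D a f x + l x) := by
    intro x
    rw [D_shift, map_add, h₁, ← add_assoc, sg_add, sg_one]
    ring
  simp_rw [h3] at h2
  rw [Finset.sum_neg_distrib] at h2
  rw [w]
  omega

theorem w_sq_le (f : V → ZMod 2) (a : V) (l : V →ₗ[ZMod 2] ZMod 2) :
    (w f a l) ^ 2 ≤ (Fintype.card V : ℤ) ^ 2 := by
  rw [← parseval f a]
  exact Finset.single_le_sum (f := fun l : V →ₗ[ZMod 2] ZMod 2 => (w f a l) ^ 2)
    (fun _ _ => sq_nonneg _) (Finset.mem_univ l)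

private theorem aff_lin (l : V →ₗ[ZMod 2] ZMod 2) (c : ZMod 2) (F : V → ZMod 2)
    (h : ∀ x, F x = l x + c) : Aff F := by
  intro a b x
  simp only [D, h, map_add]
  generalize l x = p
  generalize l a = q
  generalize l b = r
  clear h
  revert p q r c
  decide

theorem aff_of_w (f : V → ZMod 2) (a : V) (l : V →ₗ[ZMod 2] ZMod 2)
    (h : (w f a l) ^ 2 = (Fintype.card V : ℤ) ^ 2) : Aff (D a f) := by
  have h1 : ∑ x, ∑ y, (1 - sg (D a f x + l x + (D a f y + l y))) = 0 := by
    have e1 : (w f a l) ^ 2 = ∑ x, ∑ y, sg (D a f x + l x + (D a f y + l y)) := by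
      rw [w, sq, Finset.sum_mul_sum]
      exact Finset.sum_congr rfl fun x _ => Finset.sum_congr rfl fun y _ => by
        rw [sg_add (D a f x + l x)]
    simp only [Finset.sum_sub_distrib, Finset.sum_const, Finset.card_univ, nsmul_eq_mul, mul_one]
    rw [← e1, h]
    ring
  have hnn : ∀ t : ZMod 2, 0 ≤ 1 - sg t := by decide
  have h2 : ∀ x y, 1 - sg (D a f x + l x + (D a f y + l y)) = 0 := by
    intro x y
    have h3 := (Finset.sum_eq_zero_iff_of_nonneg fun x _ =>
      Finset.sum_nonneg fun y _ => hnn (D a f x + l x + (D a f y + l y))).1 h1 x (Finset.mem_univ x)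
    exact (Finset.sum_eq_zero_iff_of_nonneg fun y _ =>
      hnn (D a f x + l x + (D a f y + l y))).1 h3 y (Finset.mem_univ y)
  refine aff_lin l (D a f 0 + l 0) _ fun x => ?_
  have h3 := h2 x 0
  have key : ∀ p q r : ZMod 2, 1 - sg (p + q + r) = 0 → p = q + r := by decide
  exact key _ _ _ h3

theorem w_of_aff (f : V → ZMod 2) (a : V) (k l : V →ₗ[ZMod 2] ZMod 2) (c : ZMod 2)
    (h : ∀ x, D a f x = k x + c) :
    (w f a l) ^ 2 = if l = k then (Fintype.card V : ℤ) ^ 2 else 0 := by
  have h1 : w f a l = sg c * ∑ x, sg ((k + l) x) := by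
    rw [w, Finset.mul_sum]
    refine Finset.sum_congr rfl fun x _ => ?_
    rw [h, LinearMap.add_apply, sg_add, sg_add, sg_add]
    ring
  have hc : sg c ^ 2 = 1 := by rw [sq, sg_mul_self]
  rw [h1, mul_pow, hc, one_mul]
  split_ifs with hlk
  · subst hlk
    have : ∀ x, (l + l) x = 0 := fun x => by rw [LinearMap.add_apply, z2_add_self]
    simp only [this, sg_zero]
    simp
  · have hne : k + l ≠ 0 := by
      intro h0
      apply hlk
      ext x
      have h2 : k x + l x = 0 := by rw [← LinearMap.add_apply, h0, LinearMap.zero_apply]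
      have key : ∀ p q : ZMod 2, p + q = 0 → q = p := by decide
      exact key _ _ h2
    obtain ⟨x₀, hx₀⟩ : ∃ x₀, (k + l) x₀ ≠ 0 := by
      by_contra hcon
      push Not at hcon
      exact hne (LinearMap.ext hcon)
    have h₁ : (k + l) x₀ = 1 := (z2_cases _).resolve_left hx₀
    have h2 : ∑ x, sg ((k + l) (x + x₀)) = ∑ x, sg ((k + l) x) :=
      Equiv.sum_comp (Equiv.addRight x₀) fun x => sg ((k + l) x)
    have h3 : ∀ x, sg ((k + l) (x + x₀)) = -sg ((k + l) x) := by
      intro x
      rw [map_add, h₁, sg_add, sg_one]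
      ring
    simp_rw [h3] at h2
    rw [Finset.sum_neg_distrib] at h2
    have h4 : ∑ x, sg ((k + l) x) = 0 := by omega
    rw [h4]
    simp

end Pool.Agent.KrdIso
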