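import Pool.Agent.KrdIso.Form
import Pool.Agent.KrdIso.Design
import Pool.Agent.KrdIso.Walsh
import Pool.Agent.KrdIso.Count

/-!
# Isolation: assembly

`S` is a self-complementary set of `N ^ 2` Boolean functions on `V`, `N = card V`, with
`(∑ x, sg (f x + g x)) ^ 2 ≤ N` for `g ≠ f, f + 1`; `G ⊆ S` consists of quadratic functions and is
closed under adding affine functions. If `card (S \ G) ≤ M * (2 * N)` with `M ^ 2 - 3 M + 4 < N` then all
functions in `S` are quadratic.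
-/

set_option autoImplicit false
set_option linter.unusedSectionVars false

namespace Pool.Agent.KrdIso

open Pool.Agent.Krd

variable {V : Type*} [AddCommGroup V] [Module (ZMod 2) V] [Fintype V] [DecidableEq V]
  [Fintype (V →ₗ[ZMod 2] ZMod 2)]

/-- The step for one hole `(a, l)`. -/
theorem hole_step (R : Finset (V → ZMod 2)) {a b : V} {l k : V →ₗ[ZMod 2] ZMod 2} {c : ℤ}
    (hN : (0 : ℤ) < Fintype.card V)
    (hconv : ∀ f ∈ R, ((Fintype.card V : ℤ) * w f a l) ^ 2 = (w f b k) ^ 2 * (w f (a + b) (k + l)) ^ 2)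
    (h1 : ∑ f ∈ R, (w f a l) ^ 2 = c) (h2 : ∑ f ∈ R, (w f b k) ^ 2 = c)
    (h3 : ∑ f ∈ R, (w f (a + b) (k + l)) ^ 2 = c) {f : V → ZMod 2} (hf : f ∈ R)
    (h0 : w f a l ≠ 0) : (w f a l) ^ 2 = (Fintype.card V : ℤ) ^ 2 := by
  set N : ℤ := (Fintype.card V : ℤ) with hNdef
  have e1 : ∑ f ∈ R, (w f b k) ^ 2 * (N ^ 2 - (w f (a + b) (k + l)) ^ 2) = 0 := by
    have : ∀ f ∈ R, (w f b k) ^ 2 * (N ^ 2 - (w f (a + b) (k + l)) ^ 2) =
        N ^ 2 * (w f b k) ^ 2 - N ^ 2 * (w f a l) ^ 2 := by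
      intro f hf
      have := hconv f hf
      linear_combination this
    rw [Finset.sum_congr rfl this, Finset.sum_sub_distrib, ← Finset.mul_sum, ← Finset.mul_sum, h1, h2,
      sub_self]
  have e2 : ∑ f ∈ R, (w f (a + b) (k + l)) ^ 2 * (N ^ 2 - (w f b k) ^ 2) = 0 := by
    have : ∀ f ∈ R, (w f (a + b) (k + l)) ^ 2 * (N ^ 2 - (w f b k) ^ 2) =
        N ^ 2 * (w f (a + b) (k + l)) ^ 2 - N ^ 2 * (w f a l) ^ 2 := by
      intro f hf
      have := hconv f hf
      linear_combination this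
    rw [Finset.sum_congr rfl this, Finset.sum_sub_distrib, ← Finset.mul_sum, ← Finset.mul_sum, h1, h3,
      sub_self]
  have p1 := (Finset.sum_eq_zero_iff_of_nonneg (fun f _ =>
    mul_nonneg (sq_nonneg _) (sub_nonneg.2 (w_sq_le f (a + b) (k + l))))).1 e1 f hf
  have p2 := (Finset.sum_eq_zero_iff_of_nonneg (fun f _ =>
    mul_nonneg (sq_nonneg _) (sub_nonneg.2 (w_sq_le f b k)))).1 e2 f hf
  have hc := hconv f hf
  have hne : (w f b k) ^ 2 ≠ 0 ∧ (w f (a + b) (k + l)) ^ 2 ≠ 0 := by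
    rw [← mul_ne_zero_iff, ← hc]
    exact pow_ne_zero 2 (mul_ne_zero hN.ne' h0)
  have q1 : (w f (a + b) (k + l)) ^ 2 = N ^ 2 := by
    rcases mul_eq_zero.1 p1 with h | h
    · exact absurd h hne.1
    · linarith
  have q2 : (w f b k) ^ 2 = N ^ 2 := by
    rcases mul_eq_zero.1 p2 with h | h
    · exact absurd h hne.2
    · linarith
  rw [q1, q2] at hc
  have hN2 : N ^ 2 ≠ 0 := pow_ne_zero 2 hN.ne'
  apply mul_left_cancel₀ hN2
  linear_combination hc

theorem quad_of_few {m : ℕ} (hm : 2 ≤ m) (hV : Fintype.card V = 2 ^ (2 * m))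
    (S G : Finset (V → ZMod 2)) (hGS : G ⊆ S)
    (hS : S.card = Fintype.card V ^ 2) (hc : ∀ f ∈ S, (fun x => f x + 1) ∈ S)
    (hd : ∀ f ∈ S, ∀ g ∈ S, g ≠ f → g ≠ (fun x => f x + 1) →
      (∑ x, sg (f x + g x)) ^ 2 ≤ Fintype.card V)
    (hGq : ∀ f ∈ G, Quad f) (hG : ∀ f ∈ G, ∀ g, Aff g → f + g ∈ G)
    (hfew : S.card ≤ G.card + (2 ^ m + 1) * (2 * Fintype.card V)) :
    ∀ f ∈ S, Quad f := by
  classical
  have hNpos : 0 < Fintype.card V := by rw [hV]; positivity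
  have hNz : (0 : ℤ) < Fintype.card V := by exact_mod_cast hNpos
  have hdes : ∀ x y z u : V, x ≠ y → z ≠ u → ¬ (z = x ∧ u = y) → ¬ (z = y ∧ u = x) →
      ∑ f ∈ S, sg (f x + f y + f z + f u) = 0 :=
    fun x y z u h1 h2 h3 h4 => design S hS hc hd h1 h2 h3 h4
  -- the forms
  have hex : ∀ f : V → ZMod 2, ∃ φ : V →ₗ[ZMod 2] V →ₗ[ZMod 2] ZMod 2, f ∈ G →
      (∀ a x, D a f x = φ a x + D a f 0) ∧ (∀ v, φ v v = 0) ∧ ∀ u v, φ u v = φ v u := by
    intro f
    by_cases hf : f ∈ G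
    · obtain ⟨φ, h⟩ := exists_form (hGq f hf)
      exact ⟨φ, fun _ => h⟩
    · exact ⟨0, fun h => absurd h hf⟩
  choose Φ hΦ using hex
  have hΦ1 : ∀ f ∈ G, ∀ a x, D a f x = Φ f a x + D a f 0 := fun f hf => (hΦ f hf).1
  have hw : ∀ f ∈ G, ∀ a (l : V →ₗ[ZMod 2] ZMod 2),
      (w f a l) ^ 2 = if l = Φ f a then (Fintype.card V : ℤ) ^ 2 else 0 := by
    intro f hf a l
    exact w_of_aff f a (Φ f a) l (D a f 0) (hΦ1 f hf a)
  let F := G.image Φ
  have hFmem : ∀ φ, φ ∈ F ↔ ∃ f ∈ G, Φ f = φ := fun φ => Finset.mem_image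
  have hcol : ∀ {a : V}, a ≠ 0 → ∀ l : V →ₗ[ZMod 2] ZMod 2, l a = 0 →
      ∑ f ∈ S, (w f a l) ^ 2 = 2 * (Fintype.card V : ℤ) ^ 3 := by
    intro a ha l hl
    rw [col_sum S hdes ha l, hS, hl, sg_zero]
    push_cast
    ring
  -- the functions outside the coset of `f` have coefficient zero at `Φ f a`
  have hout : ∀ f ∈ G, ∀ {a : V}, a ≠ 0 → ∀ g ∈ S, g ∉ G.filter (fun g => Φ g = Φ f) →
      w g a (Φ f a) = 0 := by
    intro f hf a ha g hg hgn
    have hsub : G.filter (fun g => Φ g = Φ f) ⊆ S := (Finset.filter_subset _ _).trans hGS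
    have h1 := hcol ha (Φ f a) ((hΦ f hf).2.1 a)
    rw [← Finset.sum_sdiff hsub] at h1
    have h2 : ∑ g ∈ G.filter (fun g => Φ g = Φ f), (w g a (Φ f a)) ^ 2 =
        2 * (Fintype.card V : ℤ) ^ 3 := by
      have h3 : ∀ g ∈ G.filter (fun g => Φ g = Φ f), (w g a (Φ f a)) ^ 2 =
          (Fintype.card V : ℤ) ^ 2 := by
        intro g hg
        rw [Finset.mem_filter] at hg
        rw [hw g hg.1, hg.2, if_pos rfl]
      rw [Finset.sum_congr rfl h3, Finset.sum_const, card_fiber G hG Φ hΦ1 hf, nsmul_eq_mul]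
      push_cast
      ring
    rw [h2] at h1
    have h4 : ∑ g ∈ S \ G.filter (fun g => Φ g = Φ f), (w g a (Φ f a)) ^ 2 = 0 := by linarith
    have h5 := (Finset.sum_eq_zero_iff_of_nonneg (fun g _ => sq_nonneg _)).1 h4 g
      (Finset.mem_sdiff.2 ⟨hg, hgn⟩)
    exact pow_eq_zero_iff (two_ne_zero) |>.1 h5
  have hns : ∀ φ ∈ F, ∀ ψ ∈ F, φ ≠ ψ → ∀ b, b ≠ 0 → φ b ≠ ψ b := by
    intro φ hφ ψ hψ hne b hb he
    obtain ⟨f, hf, rfl⟩ := (hFmem φ).1 hφ
    obtain ⟨g, hg, rfl⟩ := (hFmem ψ).1 hψ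
    have h1 := hout f hf hb g (hGS hg) (by
      rw [Finset.mem_filter]
      exact fun h => hne h.2.symm)
    have h2 := hw g hg b (Φ f b)
    rw [h1, if_pos he] at h2
    have h3 : (0 : ℤ) < (Fintype.card V : ℤ) ^ 2 := by positivity
    rw [← h2] at h3
    simp at h3
  have halt : ∀ φ ∈ F, ∀ v, φ v v = 0 := by
    intro φ hφ
    obtain ⟨f, hf, rfl⟩ := (hFmem φ).1 hφ
    exact (hΦ f hf).2.1
  have hsymm : ∀ φ ∈ F, ∀ u v, φ u v = φ v u := by
    intro φ hφ
    obtain ⟨f, hf, rfl⟩ := (hFmem φ).1 hφ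
    exact (hΦ f hf).2.2
  -- the number of forms
  have hcardG : G.card = F.card * (2 * Fintype.card V) := by
    rw [Finset.card_eq_sum_card_image Φ G]
    have h1 : ∀ φ ∈ G.image Φ, (G.filter fun g => Φ g = φ).card = 2 * Fintype.card V := by
      intro φ hφ
      obtain ⟨f, hf, rfl⟩ := Finset.mem_image.1 hφ
      exact card_fiber G hG Φ hΦ1 hf
    rw [Finset.sum_congr rfl h1, Finset.sum_const, smul_eq_mul]
  obtain ⟨M, hFM, hMb⟩ : ∃ M, F.card + M = 2 ^ (2 * m - 1) ∧ M ≤ 2 ^ m + 1 := by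
    have hle : G.card ≤ S.card := Finset.card_le_card hGS
    have e1 : S.card = 2 ^ (2 * m - 1) * (2 * Fintype.card V) := by
      rw [hS, hV, sq]
      have : 2 ^ (2 * m) = 2 ^ (2 * m - 1) * 2 := by
        rw [← pow_succ]
        congr 1
        omega
      nlinarith [this]
    have hpos : 0 < 2 * Fintype.card V := by positivity
    have h1 : F.card ≤ 2 ^ (2 * m - 1) := by
      rw [hcardG, e1] at hle
      exact Nat.le_of_mul_le_mul_right hle hpos
    refine ⟨2 ^ (2 * m - 1) - F.card, by omega, ?_⟩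
    rw [hcardG, e1, ← add_mul] at hfew
    have h2 := Nat.le_of_mul_le_mul_right hfew hpos
    omega
  have hM : M ^ 2 + 4 < 2 ^ (2 * m) + 3 * M := by
    have h4 : 4 ≤ 2 ^ m := by
      calc 4 = 2 ^ 2 := by norm_num
        _ ≤ 2 ^ m := Nat.pow_le_pow_right (by norm_num) hm
    have h5 : 2 ^ (2 * m) = 2 ^ m * 2 ^ m := by rw [← pow_add]; congr 1; omega
    rw [h5]
    generalize 2 ^ m = t at *
    rcases Nat.lt_or_ge M 2 with h | h
    · interval_cases M
      · nlinarith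
      · nlinarith
    · obtain ⟨s, rfl⟩ := Nat.exists_eq_add_of_le h
      have h6 : s ≤ t - 1 := by omega
      obtain ⟨t', rfl⟩ : ∃ t', t = t' + 1 := ⟨t - 1, by omega⟩
      have h7 : s ≤ t' := by omega
      nlinarith [Nat.mul_le_mul h7 h7]
  -- the holes
  have hhole : ∀ {a : V}, a ≠ 0 → ∀ l : V →ₗ[ZMod 2] ZMod 2, l a = 0 → (∀ φ ∈ F, φ a ≠ l) →
      ∑ f ∈ S \ G, (w f a l) ^ 2 = 2 * (Fintype.card V : ℤ) ^ 3 := by
    intro a ha l hl hla
    rw [← hcol ha l hl, ← Finset.sum_sdiff hGS]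
    have h1 : ∑ f ∈ G, (w f a l) ^ 2 = 0 := by
      refine Finset.sum_eq_zero fun f hf => ?_
      rw [hw f hf, if_neg]
      intro h
      exact hla (Φ f) ((hFmem _).2 ⟨f, hf, rfl⟩) h.symm
    rw [h1, add_zero]
  have hzero : ∀ f ∈ S \ G, ∀ {a : V}, a ≠ 0 → ∀ l : V →ₗ[ZMod 2] ZMod 2,
      w f a l ≠ 0 → l a = 0 ∧ ∀ φ ∈ F, φ a ≠ l := by
    intro f hf a ha l h
    rw [Finset.mem_sdiff] at hf
    refine ⟨by_contra fun h1 => h (w_eq_zero f h1), ?_⟩
    intro φ hφ he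
    obtain ⟨g, hg, rfl⟩ := (hFmem φ).1 hφ
    apply h
    rw [← he]
    refine hout g hg ha f hf.1 ?_
    rw [Finset.mem_filter]
    exact fun h => hf.2 h.1
  have key : ∀ f ∈ S \ G, ∀ {a : V}, a ≠ 0 → ∀ l : V →ₗ[ZMod 2] ZMod 2,
      w f a l ≠ 0 → (w f a l) ^ 2 = (Fintype.card V : ℤ) ^ 2 := by
    intro f hf a ha l hne
    obtain ⟨hl, hla⟩ := hzero f hf ha l hne
    obtain ⟨b, hb0, hba, hcard⟩ := exists_few F (r := 2 * m) (M := M) (by omega) hV halt hsymm hns
      hFM hM ha hl hla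
    have hab : a + b ≠ 0 := by
      intro h
      apply hba
      calc b = a + a + b := by rw [add_self', zero_add]
        _ = a + (a + b) := add_assoc _ _ _
        _ = a := by rw [h, add_zero]
    set T := Finset.univ.filter fun k : V →ₗ[ZMod 2] ZMod 2 =>
      k b = 0 ∧ (k + l) (a + b) = 0 ∧ (∀ φ ∈ F, φ b ≠ k) ∧ ∀ φ ∈ F, φ (a + b) ≠ k + l with hT
    have hmemT : ∀ g ∈ S \ G, ∀ k, sg ((k + l) b) * (w g b k * w g (a + b) (k + l)) ≠ 0 → k ∈ T := by
      intro g hg k hk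
      have h1 : w g b k ≠ 0 := fun h => hk (by rw [h, zero_mul, mul_zero])
      have h2 : w g (a + b) (k + l) ≠ 0 := fun h => hk (by rw [h, mul_zero, mul_zero])
      obtain ⟨h3, h4⟩ := hzero g hg hb0 k h1
      obtain ⟨h5, h6⟩ := hzero g hg hab (k + l) h2
      rw [hT, Finset.mem_filter]
      exact ⟨Finset.mem_univ _, h3, h5, h4, h6⟩
    have hTne : ∃ k, k ∈ T := by
      by_contra hcon
      push Not at hcon
      apply hne
      have h1 := conv f a b l
      rw [Finset.sum_eq_zero] at h1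
      · rcases mul_eq_zero.1 h1 with h2 | h2
        · exact absurd h2 hNz.ne'
        · exact h2
      · intro k _
        by_contra h2
        exact hcon k (hmemT f hf k h2)
    obtain ⟨k, hk⟩ := hTne
    have hTk : T = {k} := by
      refine (Finset.eq_singleton_iff_unique_mem.2 ⟨hk, ?_⟩)
      intro k' hk'
      exact Finset.card_le_one.1 hcard k' hk' k hk
    have hkT := hk
    rw [hT, Finset.mem_filter] at hkT
    obtain ⟨-, k1, k2, k3, k4⟩ := hkT
    refine hole_step (S \ G) (a := a) (b := b) (l := l) (k := k) hNz ?_ (hhole ha l hl hla)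
      (hhole hb0 k k1 k3) (hhole hab (k + l) k2 k4) hf hne
    intro g hg
    have h1 := conv g a b l
    rw [Finset.sum_eq_single k] at h1
    · rw [h1]
      have h2 := sg_mul_self ((k + l) b)
      linear_combination ((w g b k) ^ 2 * (w g (a + b) (k + l)) ^ 2) * h2
    · intro k' _ hk'
      by_contra h2
      have h3 := hmemT g hg k' h2
      rw [hTk, Finset.mem_singleton] at h3
      exact hk' h3
    · intro h
      exact absurd (Finset.mem_univ _) h
  intro f hf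
  by_cases hfG : f ∈ G
  · exact hGq f hfG
  have hfR : f ∈ S \ G := Finset.mem_sdiff.2 ⟨hf, hfG⟩
  rw [quad_iff_aff_D]
  intro a
  by_cases ha : a = 0
  · subst ha
    intro u v x
    simp only [D, add_zero]
    have h1 := z2_add_self (f x)
    have h2 := z2_add_self (f (x + v))
    have h3 := z2_add_self (f (x + u))
    have h4 := z2_add_self (f (x + u + v))
    linear_combination h1 + h2 + h3 + h4
  · have h1 := parseval f a
    have h2 : ∃ l : V →ₗ[ZMod 2] ZMod 2, w f a l ≠ 0 := by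
      by_contra hcon
      push Not at hcon
      rw [Finset.sum_eq_zero fun l _ => by rw [hcon l]; norm_num] at h1
      have : (0 : ℤ) < (Fintype.card V : ℤ) ^ 2 := by positivity
      omega
    obtain ⟨l, hl⟩ := h2
    exact aff_of_w f a l (key f hfR ha l hl)

end Pool.Agent.KrdIso
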